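import Pool.Agent.Helper28.ND.Spec4

/-! Part DRI of the swarm ND2 (MP_0c2f33_an): the limit drift. -/

namespace Pool.Agent.Helper53.ND.DRI
open MeasureTheory Set Filter Topology
open scoped ENNReal NNReal
open Pool.Agent.Helper28.ND

noncomputable section

/-- the pulse of level `k` -/
def pul (n0 N M k : ℕ) : (Fin 2 → ℝ) → (Fin 2 → ℝ) :=
  fun x i => VV n0 N M k * bet (rr n0 N k) N x i

/-- the times of the pulses of level `k + m` -/
def EE (n0 N M : ℕ) : ℕ → ℕ → Set ℝ
  | 0, k => ⋃ j ∈ Finset.range M,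
      Icc ((2 * (j : ℝ) + 1) * LL n0 N (k + 1)) ((2 * (j : ℝ) + 2) * LL n0 N (k + 1))
  | (m + 1), k => ⋃ j ∈ Finset.range M,
      (fun t : ℝ => t - 2 * (j : ℝ) * LL n0 N (k + 1)) ⁻¹' (EE n0 N M m (k + 1))

theorem meas_EE (n0 N M : ℕ) : ∀ m k, MeasurableSet (EE n0 N M m k)
  | 0, k => Finset.measurableSet_biUnion _ fun j _ => measurableSet_Icc
  | (m + 1), k => Finset.measurableSet_biUnion _ fun j _ =>
      (meas_EE n0 N M m (k + 1)).preimage (by fun_prop)

theorem vol_EE (n0 N M : ℕ) : ∀ m k, volume (EE n0 N M m k)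
    ≤ ENNReal.ofReal ((M : ℝ) ^ (m + 1) * LL n0 N (k + m + 1))
  | 0, k => by
    have hL : 0 ≤ LL n0 N (k + 1) := by unfold LL; positivity
    calc volume (EE n0 N M 0 k) ≤ ∑ j ∈ Finset.range M,
          volume (Icc ((2 * (j : ℝ) + 1) * LL n0 N (k + 1)) ((2 * (j : ℝ) + 2) * LL n0 N (k + 1))) :=
          measure_biUnion_finset_le _ _
      _ = ∑ j ∈ Finset.range M, ENNReal.ofReal (LL n0 N (k + 1)) := by
          refine Finset.sum_congr rfl fun j _ => ?_
          rw [Real.volume_Icc]; congr 1; ring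
      _ = ENNReal.ofReal ((M : ℝ) ^ (0 + 1) * LL n0 N (k + 0 + 1)) := by
          rw [Finset.sum_const, Finset.card_range, nsmul_eq_mul, ENNReal.ofReal_mul (by positivity)]
          simp
  | (m + 1), k => by
    have hL : 0 ≤ LL n0 N (k + 1 + m + 1) := by unfold LL; positivity
    calc volume (EE n0 N M (m + 1) k) ≤ ∑ j ∈ Finset.range M,
          volume ((fun t : ℝ => t - 2 * (j : ℝ) * LL n0 N (k + 1)) ⁻¹' (EE n0 N M m (k + 1))) :=
          measure_biUnion_finset_le _ _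
      _ ≤ ∑ j ∈ Finset.range M, ENNReal.ofReal ((M : ℝ) ^ (m + 1) * LL n0 N (k + 1 + m + 1)) := by
          refine Finset.sum_le_sum fun j _ => ?_
          rw [(measurePreserving_sub_right (volume : Measure ℝ) _).measure_preimage
            (meas_EE n0 N M m (k + 1)).nullMeasurableSet]
          exact vol_EE n0 N M m (k + 1)
      _ = ENNReal.ofReal ((M : ℝ) ^ (m + 1 + 1) * LL n0 N (k + (m + 1) + 1)) := by
          rw [Finset.sum_const, Finset.card_range, nsmul_eq_mul,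
            show k + 1 + m + 1 = k + (m + 1) + 1 by ring, pow_succ (M : ℝ) (m + 1),
            mul_comm ((M : ℝ) ^ (m + 1)) (M : ℝ), mul_assoc, ENNReal.ofReal_mul (by positivity)]
          simp

theorem bt_struct {n0 N M : ℕ} (hL : ∀ k, 0 < LL n0 N k) : ∀ n k t,
    bt n0 N M n k t ≠ (fun _ _ => 0) → ∃ m < n, t ∈ EE n0 N M m k ∧
      ∀ n', m < n' → bt n0 N M n' k t = pul n0 N M (k + m) := by
  intro n
  induction n with
  | zero => intro k t h; exact absurd rfl h
  | succ n ih =>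
    intro k t h
    by_cases h1 : t ≤ 0 ∨ KC n0 N M k ≤ t
    · exact absurd (by simp only [bt, if_pos h1]) h
    have hLk := hL (k + 1)
    push Not at h1
    obtain ⟨h1a, h1b⟩ := h1
    have h1' : ¬ (t ≤ 0 ∨ KC n0 N M k ≤ t) := by push Not; exact ⟨h1a, h1b⟩
    have hfl0 : (0 : ℤ) ≤ ⌊t / (2 * LL n0 N (k + 1))⌋ := Int.floor_nonneg.2 (by positivity)
    have hflM : ⌊t / (2 * LL n0 N (k + 1))⌋ < (M : ℤ) := by
      rw [Int.floor_lt, div_lt_iff₀ (by positivity)]
      unfold KC at h1b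
      push_cast
      linarith
    obtain ⟨j, hj⟩ := Int.eq_ofNat_of_zero_le hfl0
    have hjM : j < M := by rw [hj] at hflM; exact_mod_cast hflM
    have hloc : loc (LL n0 N (k + 1)) t = t - 2 * (j : ℝ) * LL n0 N (k + 1) := by
      unfold loc; rw [hj]; push_cast; ring
    by_cases h2 : loc (LL n0 N (k + 1)) t < LL n0 N (k + 1)
    · have h3 : bt n0 N M n (k + 1) (loc (LL n0 N (k + 1)) t) ≠ (fun _ _ => 0) := by
        intro h4; apply h; simp only [bt, if_neg h1', if_pos h2]; exact h4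
      obtain ⟨m, hm, hmE, hmP⟩ := ih (k + 1) _ h3
      refine ⟨m + 1, by omega, ?_, ?_⟩
      · simp only [EE, mem_iUnion, Finset.mem_range]
        exact ⟨j, hjM, by rw [mem_preimage, ← hloc]; exact hmE⟩
      · intro n' hn'
        obtain ⟨n'', rfl⟩ : ∃ n'', n' = n'' + 1 := ⟨n' - 1, by omega⟩
        have := hmP n'' (by omega)
        simp only [bt, if_neg h1', if_pos h2]
        rw [this, show k + 1 + m = k + (m + 1) by ring]
    · refine ⟨0, by omega, ?_, ?_⟩
      · simp only [EE, mem_iUnion, Finset.mem_range]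
        refine ⟨j, hjM, ?_⟩
        rw [hloc] at h2
        have h5 : t / (2 * LL n0 N (k + 1)) < (j : ℝ) + 1 := by
          have := Int.lt_floor_add_one (t / (2 * LL n0 N (k + 1)))
          rw [hj] at this; exact_mod_cast this
        rw [div_lt_iff₀ (by positivity)] at h5
        constructor <;> nlinarith
      · intro n' hn'
        obtain ⟨n'', rfl⟩ : ∃ n'', n' = n'' + 1 := ⟨n' - 1, by omega⟩
        simp only [bt, if_neg h1', if_neg h2]
        rfl

theorem measQ : MeasurableSet (Q 2) := MeasurableSet.univ_pi fun _ => measurableSet_Ioc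

/-- the level contributions -/
def aa (n0 N M : ℕ) (C s : ℝ) (m : ℕ) : ℝ≥0∞ :=
  ENNReal.ofReal ((VV n0 N M m * C) ^ 2 * (4 * rr n0 N m) ^ (2 / s)) *
    volume (EE n0 N M m 0)

theorem aa_sum {n0 N M : ℕ} {s C : ℝ} (hN : 0 < N) (hM : 0 < M) (hn : 0 < n0) (hs : 0 < s)
    (hMN : (M : ℝ) < (N : ℝ) ^ (2 / s)) : ∑' m, aa n0 N M C s m ≠ ⊤ := by
  have hN' : (0 : ℝ) < N := by exact_mod_cast hN
  have hM' : (0 : ℝ) < M := by exact_mod_cast hM
  have hn' : (0 : ℝ) < n0 := by exact_mod_cast hn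
  have hNs : (0 : ℝ) < (N : ℝ) ^ (2 / s) := Real.rpow_pos_of_pos hN' _
  set th : ℝ := (M : ℝ) / (N : ℝ) ^ (2 / s) with hth
  have hth0 : 0 ≤ th := by positivity
  have hth1 : th < 1 := (div_lt_one hNs).2 hMN
  set c : ℝ := C ^ 2 * ((N : ℝ) ^ 2 / (16 * 64 ^ 2 * (M : ℝ) ^ 2)) * (4 / n0 : ℝ) ^ (2 / s) * M with hc
  have hc0 : 0 ≤ c := by positivity
  have key : ∀ m, aa n0 N M C s m ≤ ENNReal.ofReal (c * th ^ m) := by
    intro m
    have hr : 0 < rr n0 N m := by unfold rr; positivity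
    have hL : 0 ≤ LL n0 N (m + 1) := by unfold LL; positivity
    calc aa n0 N M C s m
        ≤ ENNReal.ofReal ((VV n0 N M m * C) ^ 2 * (4 * rr n0 N m) ^ (2 / s)) *
          ENNReal.ofReal ((M : ℝ) ^ (m + 1) * LL n0 N (m + 1)) := by
          refine mul_le_mul_right ?_ _
          have := vol_EE n0 N M m 0
          simpa using this
      _ = ENNReal.ofReal (c * th ^ m) := by
          rw [← ENNReal.ofReal_mul (by positivity)]
          congr 1
          have e1 : (4 * rr n0 N m) ^ (2 / s) = (4 / n0 : ℝ) ^ (2 / s) / ((N : ℝ) ^ (2 / s)) ^ m := by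
            rw [← Real.rpow_natCast ((N : ℝ) ^ (2 / s)) m, ← Real.rpow_mul hN'.le, mul_comm (2 / s),
              Real.rpow_mul hN'.le, ← Real.div_rpow (by positivity) (by positivity)]
            congr 1
            unfold rr
            push_cast
            rw [Real.rpow_natCast]
            field_simp
          have e2 : (VV n0 N M m) ^ 2 * LL n0 N (m + 1) = (N : ℝ) ^ 2 / (16 * 64 ^ 2 * (M : ℝ) ^ 2) := by
            have e3 : LL n0 N (m + 1) = 16 * (rr n0 N m / N) ^ 2 := by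
              unfold LL rr
              push_cast
              field_simp
              ring
            unfold VV
            rw [e3]
            field_simp
          rw [hc, hth, div_pow, e1]
          calc _ = C ^ 2 * ((VV n0 N M m) ^ 2 * LL n0 N (m + 1)) *
                ((4 / n0 : ℝ) ^ (2 / s) / ((N : ℝ) ^ (2 / s)) ^ m) * (M : ℝ) ^ (m + 1) := by ring
            _ = _ := by rw [e2, pow_succ]; ring
  refine ne_top_of_le_ne_top ?_ (ENNReal.tsum_le_tsum key)
  rw [← ENNReal.ofReal_tsum_of_nonneg (fun m => by positivity)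
    ((summable_geometric_of_lt_one hth0 hth1).mul_left c)]
  exact ENNReal.ofReal_ne_top

/-- the constants of the levels -/
def cc (n0 N M : ℕ) (C s : ℝ) (m : ℕ) : ℝ≥0∞ :=
  ENNReal.ofReal ((VV n0 N M m * C) ^ 2 * (4 * rr n0 N m) ^ (2 / s))

theorem cc_lint (n0 N M : ℕ) (C s : ℝ) (m : ℕ) :
    ∫⁻ t, (EE n0 N M m 0).indicator (fun _ => cc n0 N M C s m) t = aa n0 N M C s m := by
  rw [lintegral_indicator_const (meas_EE n0 N M m 0)]; rfl

theorem pul_bounds {n0 N M : ℕ} {C : ℝ} (hN : 0 < N) (hM : 0 < M) (hn : 8 ≤ n0)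
    (hC1 : 1 ≤ C) (hC : ∀ n : ℕ, 8 ≤ n →
      (∀ x, |bet (1 / (n : ℝ)) N x 0| ≤ 1 ∧ |bet (1 / (n : ℝ)) N x 1| ≤ C) ∧
      (∀ x, 1 / (n : ℝ) ≤ |sd (x 0)| → bet (1 / (n : ℝ)) N x = 0) ∧
      volume {x : Fin 2 → ℝ | x ∈ Q 2 ∧ |sd (x 0)| < 1 / (n : ℝ)} ≤ ENNReal.ofReal (4 / (n : ℝ)))
    (m : ℕ) :
    (∀ x, ‖pul n0 N M m x‖ₑ ≤ ({x : Fin 2 → ℝ | |sd (x 0)| < rr n0 N m}).indicator
      (fun _ => ENNReal.ofReal (VV n0 N M m * C)) x) ∧
    (volume.restrict (Q 2)) {x : Fin 2 → ℝ | |sd (x 0)| < rr n0 N m} ≤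
      ENNReal.ofReal (4 * rr n0 N m) := by
  have h8 : 8 ≤ n0 * N ^ m := le_trans hn (Nat.le_mul_of_pos_right _ (pow_pos hN m))
  obtain ⟨h1, h2, h3⟩ := hC (n0 * N ^ m) h8
  have hr : 0 < rr n0 N m := by
    unfold rr; have : 0 < n0 * N ^ m := by omega
    positivity
  have hL : 0 < LL n0 N (m + 1) := by
    unfold LL rr
    have : 0 < n0 * N ^ (m + 1) := by positivity
    positivity
  have hV : 0 ≤ VV n0 N M m := by unfold VV; positivity
  constructor
  · intro x
    by_cases hx : |sd (x 0)| < rr n0 N m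
    · rw [indicator_of_mem (show x ∈ {x : Fin 2 → ℝ | |sd (x 0)| < rr n0 N m} from hx)]
      rw [← ofReal_norm]
      refine ENNReal.ofReal_le_ofReal ((pi_norm_le_iff_of_nonneg (by positivity)).2 fun i => ?_)
      unfold pul
      rw [Real.norm_eq_abs, abs_mul, abs_of_nonneg hV]
      refine mul_le_mul_of_nonneg_left ?_ hV
      fin_cases i
      · exact (h1 x).1.trans hC1
      · exact (h1 x).2
    · have h0 : pul n0 N M m x = 0 := by
        have h4 := h2 x (not_lt.1 hx)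
        unfold pul
        funext i
        have : bet (rr n0 N m) N x = 0 := h4
        rw [this]; simp
      rw [h0]; simp
  · rw [Measure.restrict_apply' measQ]
    have : ({x : Fin 2 → ℝ | |sd (x 0)| < rr n0 N m} ∩ Q 2)
        = {x : Fin 2 → ℝ | x ∈ Q 2 ∧ |sd (x 0)| < 1 / ((n0 * N ^ m : ℕ) : ℝ)} := by
      ext x; simp only [mem_inter_iff, mem_setOf_eq]; exact and_comm
    rw [this]
    refine h3.trans (le_of_eq ?_)
    congr 1
    unfold rr
    ring

theorem pul_p {n0 N M : ℕ} {C : ℝ} {p : ℝ≥0∞} (hp2 : 2 ≤ p) (hpt : p ≠ ⊤) (m : ℕ)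
    (hV : 0 ≤ VV n0 N M m * C) (hr : 0 ≤ rr n0 N m)
    (h : (∀ x, ‖pul n0 N M m x‖ₑ ≤ ({x : Fin 2 → ℝ | |sd (x 0)| < rr n0 N m}).indicator
      (fun _ => ENNReal.ofReal (VV n0 N M m * C)) x) ∧
    (volume.restrict (Q 2)) {x : Fin 2 → ℝ | |sd (x 0)| < rr n0 N m} ≤
      ENNReal.ofReal (4 * rr n0 N m)) :
    (eLpNorm (pul n0 N M m) p (volume.restrict (Q 2))) ^ 2 ≤ cc n0 N M C p.toReal m := by
  have hp0 : 0 < p.toReal := ENNReal.toReal_pos (by intro h; rw [h] at hp2; simp at hp2) hpt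
  have h1 : eLpNorm (pul n0 N M m) p (volume.restrict (Q 2)) ≤
      eLpNorm (({x : Fin 2 → ℝ | |sd (x 0)| < rr n0 N m}).indicator
        (fun _ => (VV n0 N M m * C : ℝ))) p (volume.restrict (Q 2)) := by
    refine eLpNorm_mono_enorm fun x => (h.1 x).trans (le_of_eq ?_)
    by_cases hx : |sd (x 0)| < rr n0 N m
    · have hx' : x ∈ {x : Fin 2 → ℝ | |sd (x 0)| < rr n0 N m} := hx
      rw [indicator_of_mem hx', indicator_of_mem hx', Real.enorm_eq_ofReal hV]
    · have hx' : x ∉ {x : Fin 2 → ℝ | |sd (x 0)| < rr n0 N m} := hx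
      rw [indicator_of_notMem hx', indicator_of_notMem hx']; simp
  have h2 := h1.trans (eLpNorm_indicator_const_le (VV n0 N M m * C : ℝ) p)
  have h3 : eLpNorm (pul n0 N M m) p (volume.restrict (Q 2)) ≤
      ENNReal.ofReal (VV n0 N M m * C * (4 * rr n0 N m) ^ (1 / p.toReal)) := by
    refine h2.trans ?_
    rw [Real.enorm_eq_ofReal hV, ENNReal.ofReal_mul hV,
      ← ENNReal.ofReal_rpow_of_nonneg (by positivity) (by positivity)]
    gcongr
    exact h.2
  refine (pow_le_pow_left' h3 2).trans (le_of_eq ?_)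
  unfold cc
  rw [← ENNReal.ofReal_pow (by positivity)]
  congr 1
  rw [mul_pow, ← Real.rpow_natCast ((4 * rr n0 N m) ^ (1 / p.toReal)) 2, ← Real.rpow_mul (by positivity)]
  congr 2
  push_cast
  ring

theorem pul_2 {n0 N M : ℕ} {C : ℝ} (m : ℕ)
    (hV : 0 ≤ VV n0 N M m * C) (hr : 0 ≤ rr n0 N m)
    (h : (∀ x, ‖pul n0 N M m x‖ₑ ≤ ({x : Fin 2 → ℝ | |sd (x 0)| < rr n0 N m}).indicator
      (fun _ => ENNReal.ofReal (VV n0 N M m * C)) x) ∧
    (volume.restrict (Q 2)) {x : Fin 2 → ℝ | |sd (x 0)| < rr n0 N m} ≤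
      ENNReal.ofReal (4 * rr n0 N m)) :
    ∫⁻ x in Q 2, ‖pul n0 N M m x‖ₑ ^ 2 ≤ cc n0 N M C 2 m := by
  calc ∫⁻ x in Q 2, ‖pul n0 N M m x‖ₑ ^ 2
      ≤ ∫⁻ x in Q 2, ({x : Fin 2 → ℝ | |sd (x 0)| < rr n0 N m}).indicator
          (fun _ => ENNReal.ofReal (VV n0 N M m * C) ^ 2) x := by
        refine lintegral_mono fun x => ?_
        refine (pow_le_pow_left' (h.1 x) 2).trans (le_of_eq ?_)
        by_cases hx : x ∈ {x : Fin 2 → ℝ | |sd (x 0)| < rr n0 N m}
        · rw [indicator_of_mem hx, indicator_of_mem hx]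
        · rw [indicator_of_notMem hx, indicator_of_notMem hx]; simp
    _ ≤ ENNReal.ofReal (VV n0 N M m * C) ^ 2 * ENNReal.ofReal (4 * rr n0 N m) :=
        (lintegral_indicator_const_le _ _).trans (mul_le_mul_right h.2 _)
    _ = cc n0 N M C 2 m := by
        unfold cc
        rw [← ENNReal.ofReal_pow hV, ← ENNReal.ofReal_mul (by positivity)]
        congr 1
        norm_num

open Classical in
/-- the limit drift -/
def bl (n0 N M : ℕ) (t : ℝ) : (Fin 2 → ℝ) → (Fin 2 → ℝ) :=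
  if h : ∃ n, bt n0 N M n 0 t ≠ (fun _ _ => 0) then bt n0 N M (Nat.find h) 0 t else fun _ _ => 0

theorem bl_struct {n0 N M : ℕ} (hL : ∀ k, 0 < LL n0 N k) (t : ℝ) :
    (bl n0 N M t = (fun _ _ => 0) ∧ ∀ n, bt n0 N M n 0 t = fun _ _ => 0) ∨
    ∃ m, t ∈ EE n0 N M m 0 ∧ bl n0 N M t = pul n0 N M m ∧
      (∀ n, m < n → bt n0 N M n 0 t = bl n0 N M t) ∧
      ∀ n, bt n0 N M n 0 t = bl n0 N M t ∨ (bt n0 N M n 0 t = (fun _ _ => 0) ∧ n ≤ m) := by
  classical
  by_cases h : ∃ n, bt n0 N M n 0 t ≠ (fun _ _ => 0)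
  · right
    have hb : bl n0 N M t = bt n0 N M (Nat.find h) 0 t := by
      unfold bl; rw [dif_pos h]
    obtain ⟨m, hm, hE, hP⟩ := bt_struct hL (Nat.find h) 0 t (Nat.find_spec h)
    rw [Nat.zero_add] at hP
    have hb' : bl n0 N M t = pul n0 N M m := by rw [hb]; exact hP _ hm
    refine ⟨m, hE, hb', fun n hn => by rw [hb']; exact hP n hn, fun n => ?_⟩
    by_cases hn : m < n
    · left; rw [hb']; exact hP n hn
    · by_cases h0 : bt n0 N M n 0 t = fun _ _ => 0
      · right; exact ⟨h0, not_lt.1 hn⟩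
      · left
        obtain ⟨m', hm', _, hP'⟩ := bt_struct hL n 0 t h0
        rw [Nat.zero_add] at hP'
        rw [hP' n hm', hb', ← hP (m + 1) (by omega), hP' (m + 1) (by omega)]
  · left
    constructor
    · unfold bl; rw [dif_neg h]
    · intro n; by_contra h0; exact h ⟨n, h0⟩

theorem main (hBLK : S_BLK) (hBETA : S_BETA) : S_DRI := by
  intro T n0 N M p hP hp2 hpt hMN
  have hN : 0 < N := lt_of_lt_of_le (by norm_num) hP.hN2
  have hM : 0 < M := hP.hM
  have hn : 8 ≤ n0 := le_trans (by norm_num) hP.hn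
  have hr : ∀ k, 0 < rr n0 N k := fun k => by
    unfold rr
    have : 0 < n0 * N ^ k := Nat.mul_pos (by omega) (pow_pos hN k)
    positivity
  have hL : ∀ k, 0 < LL n0 N k := fun k => by
    have := hr k
    unfold LL; positivity
  obtain ⟨C, hC1, hC⟩ := hBETA N (le_trans (by norm_num) hP.hN2)
  have hV : ∀ m, 0 ≤ VV n0 N M m * C := fun m => by
    have h1 := hr m
    have h2 := hL (m + 1)
    unfold VV; positivity
  have hb := pul_bounds (M := M) hN hM hn hC1 (fun n hn => ⟨(hC n hn).2.2.2.1, (hC n hn).2.2.2.2.2.1,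
    (hC n hn).2.2.2.2.2.2.2.2⟩)
  have hfd : ∀ n, FD 2 T (bt n0 N M n 0) (ft n0 N M n 0) := fun n => (hBLK T n0 N M hP n 0).1
  have hp0 : 0 < p.toReal := ENNReal.toReal_pos (by intro h; rw [h] at hp2; simp at hp2) hpt
  -- eventually constant
  have hev : ∀ t, ∃ n1, ∀ n, n1 ≤ n → bt n0 N M n 0 t = bl n0 N M t := by
    intro t
    rcases bl_struct (M := M) hL t with ⟨h1, h2⟩ | ⟨m, -, -, h3, -⟩
    · exact ⟨0, fun n _ => by rw [h1, h2 n]⟩
    · exact ⟨m + 1, fun n hn => h3 n (by omega)⟩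
  refine ⟨bl n0 N M, ⟨?_, ?_, ?_, ?_⟩, ?_⟩
  · refine measurable_of_tendsto_metrizable (f := fun n => U (bt n0 N M n 0))
      (fun n => (hfd n).mb) (tendsto_pi_nhds.2 fun z => ?_)
    obtain ⟨n1, h1⟩ := hev z.1
    refine tendsto_const_nhds.congr' ?_
    filter_upwards [eventually_ge_atTop n1] with n hn
    unfold U
    rw [h1 n hn]
  · intro t
    obtain ⟨n1, h1⟩ := hev t
    rw [← h1 n1 le_rfl]
    exact (hfd n1).pb t
  · refine lt_of_le_of_lt (b := ∑' m, aa n0 N M C p.toReal m) ?_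
      (lt_top_iff_ne_top.2 (aa_sum hN hM (by omega) hp0 hMN))
    calc ∫⁻ t in Ioo 0 T, (eLpNorm (bl n0 N M t) p (volume.restrict (Q 2))) ^ 2
        ≤ ∫⁻ t in Ioo 0 T, ∑' m, (EE n0 N M m 0).indicator (fun _ => cc n0 N M C p.toReal m) t := by
          refine lintegral_mono fun t => ?_
          rcases bl_struct (M := M) hL t with ⟨h1, -⟩ | ⟨m, h1, h2, -, -⟩
          · rw [h1]
            have : eLpNorm (fun (_ : Fin 2 → ℝ) (_ : Fin 2) => (0 : ℝ)) p (volume.restrict (Q 2)) = 0 :=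
              eLpNorm_zero
            rw [this]; simp
          · refine le_trans ?_ (ENNReal.le_tsum m)
            rw [indicator_of_mem h1, h2]
            exact pul_p hp2 hpt m (hV m) (hr m).le (hb m)
      _ ≤ ∫⁻ t, ∑' m, (EE n0 N M m 0).indicator (fun _ => cc n0 N M C p.toReal m) t :=
          lintegral_mono' Measure.restrict_le_self le_rfl
      _ = ∑' m, aa n0 N M C p.toReal m := by
          rw [lintegral_tsum fun m => (measurable_const.indicator (meas_EE n0 N M m 0)).aemeasurable]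
          exact tsum_congr fun m => cc_lint n0 N M C p.toReal m
  · intro f hf
    have h0 : ∀ t, ∫ x in Q 2, ∑ i, bl n0 N M t x i * pd i (f t) x = 0 := by
      intro t
      obtain ⟨n1, h1⟩ := hev t
      rw [← h1 n1 le_rfl]
      refine (hfd n1).db t (f t) ?_ (hf.1.per t)
      have h2 : ContDiff ℝ 1 (U f) := hf.1.smooth.of_le (by exact_mod_cast le_top)
      exact h2.comp (contDiff_const.prodMk contDiff_id)
    simp only [h0, integral_zero]
  · have hMN2 : (M : ℝ) < (N : ℝ) ^ ((2 : ℝ) / 2) := by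
      rw [div_self (by norm_num), Real.rpow_one]
      have h1 : 24576 * M ≤ N := hP.hNM
      have h2 : M < N := by omega
      exact_mod_cast h2
    have hs := aa_sum (C := C) hN hM (by omega : 0 < n0) (by norm_num : (0 : ℝ) < 2) hMN2
    refine tendsto_of_tendsto_of_tendsto_of_le_of_le tendsto_const_nhds
      (ENNReal.tendsto_sum_nat_add _ hs) (fun K => zero_le) (fun K => ?_)
    calc ∫⁻ t in Ioo 0 T, ∫⁻ x in Q 2, ‖bt n0 N M K 0 t x - bl n0 N M t x‖ₑ ^ 2
        ≤ ∫⁻ t in Ioo 0 T, ∑' m, (EE n0 N M (m + K) 0).indicator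
            (fun _ => cc n0 N M C 2 (m + K)) t := by
          refine lintegral_mono fun t => ?_
          have hz : bt n0 N M K 0 t = bl n0 N M t →
              ∫⁻ x in Q 2, ‖bt n0 N M K 0 t x - bl n0 N M t x‖ₑ ^ 2 = 0 := by
            intro h; simp [h]
          rcases bl_struct (M := M) hL t with ⟨h1, h2⟩ | ⟨m, h1, h2, -, h4⟩
          · rw [hz (by rw [h1, h2])]; exact zero_le
          · rcases h4 K with h5 | ⟨h5, h6⟩
            · rw [hz h5]; exact zero_le
            · obtain ⟨m', rfl⟩ : ∃ m', m = m' + K := ⟨m - K, by omega⟩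
              refine le_trans ?_ (ENNReal.le_tsum m')
              rw [indicator_of_mem h1]
              refine le_trans (le_of_eq ?_) (pul_2 (m' + K) (hV _) (hr _).le (hb _))
              refine lintegral_congr fun x => ?_
              rw [h5, h2]
              congr 1
              rw [show (fun (_ : Fin 2 → ℝ) (_ : Fin 2) => (0 : ℝ)) x - pul n0 N M (m' + K) x
                = - pul n0 N M (m' + K) x from by funext i; simp]
              exact enorm_neg _
      _ ≤ ∫⁻ t, ∑' m, (EE n0 N M (m + K) 0).indicator (fun _ => cc n0 N M C 2 (m + K)) t :=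
          lintegral_mono' Measure.restrict_le_self le_rfl
      _ = ∑' m, aa n0 N M C 2 (m + K) := by
          rw [lintegral_tsum fun m =>
            (measurable_const.indicator (meas_EE n0 N M (m + K) 0)).aemeasurable]
          exact tsum_congr fun m => cc_lint n0 N M C 2 (m + K)

end

end Pool.Agent.Helper53.ND.DRI
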